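import Mathlib
import Pool.Agent.Work.MP_90e10c_an.Defs
import Pool.Agent.Work.MP_90e10c_an.Main

set_option autoImplicit false

open MeasureTheory Pool.Agent.Work.MP_90e10c_an

namespace Pool.Agent.Results.MP_90e10c_an.FiniteCompleteSet

/-- There is a singular spectral pair on the line whose set of complete numbers is exactly
`{1, -1}`; in particular it is finite. -/
theorem result : ∃ (μ : Measure ℝ) (Λ : Set ℝ),
    IsSingularSpectralPair μ Λ ∧ {t : ℝ | IsCompleteNumber μ Λ t} = {1, -1} := by
  refine ⟨mu, Lam, ⟨inferInstance, ⟨Set.Icc 0 1, isCompact_Icc, mu_compact⟩, Lam_spectral,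
    mu_singular, ?_⟩, ?_⟩
  · rintro ⟨s, hs⟩
    have hat := no_atoms_of mu Lam Lam_infinite Lam_spectral
    rcases s.eq_empty_or_nonempty with h | ⟨x, hx⟩
    · rw [h] at hs
      have h1 : mu Set.univ = 1 := measure_univ
      rw [hs] at h1
      simp at h1
    · have h1 := hat x
      rw [hs] at h1
      simp only [Measure.smul_apply, smul_eq_mul, Measure.finsetSum_apply, mul_eq_zero,
        ENNReal.inv_eq_zero, ENNReal.natCast_ne_top, false_or] at h1
      have h2 := (Finset.sum_eq_zero_iff.1 h1) x hx
      simp at h2
  · ext t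
    simp only [Set.mem_ofPred_eq, Set.mem_insert_iff, Set.mem_singleton_iff]
    constructor
    · exact complete_eq t
    · rintro (rfl | rfl)
      · show IsSpectralPair mu ((fun l => (1 : ℝ) * l) '' Lam)
        have : (fun l : ℝ => (1 : ℝ) * l) '' Lam = Lam := by simp
        rw [this]
        exact Lam_spectral
      · exact Lam_neg_spectral

end Pool.Agent.Results.MP_90e10c_an.FiniteCompleteSet
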